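import Pool.Agent.R782.Bal.Tay

/-!
# The Taylor coefficients at `1/4` of the `γ`-polynomial of coloured subdivisions

Let `S` be a flag homology sphere of dimension `n - 1` with the `γ`-vector `γ`. For `l ≤ n / 2` put
`τ_l = ∑ C(i, l) γ_i / 4^i`, so that `∑ γ_i s^i = ∑ τ_l (4 s - 1)^l`. If `n` is even then `τ_(n/2) = γ_(n/2) / 4^(n/2)`,
and `τ_(n/2) ≥ 0` is the inequality of Charney and Davis; for odd `n` the last Taylor coefficient is
`γ_((n-1)/2) / 4^((n-1)/2)`. All the inequalities `τ_l ≥ 0` follow from Gal's conjecture, and if all of them hold, then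
`∑ γ_i s^i > 0` for all real numbers `s ≥ 1/4`; that is, the `h`-polynomial
`h(t) = (1 + t)^n ∑ γ_i (t / (1 + t)^2)^i` has no zeros on the unit circle except for `-1`.

One has `(-1)^l 2^n 4^(-l) τ_l = ∑ χ(lk T)`, the sum over the faces `T` with `n - 2 l` vertices, where
`χ(L) = ∑ (-1/2)^|σ|`. So one needs the inequality of Charney and Davis for the links of the faces `T`. Here it is
proved for the links of the faces in the colourwise barycentric subdivision `S = cs X col` of a simplicial complex `X`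
the vertices of which are coloured by `k` colours such that each simplex with all vertices of the colour `c` has at
most `2 a c` vertices, if `2 ∑ a c + oddColours T ≤ n + 2`, where `oddColours T` is the number of the colours `c` such
that `T` has an odd number of vertices of the colour `c`.

In particular (note that always `2 ∑ a c ≥ n`):

* `γ_m ≥ 0` for `n = 2 m + 1` and `∑ a c ≤ m + 1`, for any number of colours;
* `4 γ_(m-1) + m γ_m ≥ 0` for `n = 2 m` and `∑ a c ≤ m`, for any number of colours (each facet of `X` has exactly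
  `2 a c` vertices of the colour `c`);
* all the `τ_l` are nonnegative and `∑ γ_i s^i > 0` for all `s ≥ 1/4`, if `2 ∑ a c + k ≤ n + 3`: three colours with
  `∑ a c = n / 2`, or two colours with `∑ a c = (n + 1) / 2`.

Proof of the inequality for the links: see `Pool/Agent/R782/Bal/Lnk.lean`. The link of `T` is a join of barycentric
subdivisions of boundaries of simplices and of a coloured subdivision. A part of it is properly coloured by
`l + 1` colours and contained in a homology sphere mod 2 of dimension `2 l`, so its `ℓ²`-homology vanishes in the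
degrees `> l` (a van Kampen obstruction argument), and the remaining vertices have `ℓ²`-acyclic lower links.
-/

set_option autoImplicit false

namespace Pool.Agent.Results.MP_19e880_co.ColouredTaylor

open Pool.Agent.W907.SG Pool.Agent.W907.SM Pool.Agent.W497.FS Pool.Agent.R781.CubeAQ Pool.Agent.R782.Bal
open Pool.Agent.TH652.Above (HSph chi_sign)

/-- `τ_l = ∑ C(i, l) γ_i / 4^i`, the sum over `0 ≤ i ≤ n / 2`. -/
def tau (n l : ℕ) (γ : ℕ → ℤ) : ℚ := ∑ i ∈ Finset.range (n / 2 + 1), (i.choose l : ℚ) * γ i / 4 ^ i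

/-- The flag complex of `G` is isomorphic to a subcomplex of a simplicial complex `K` of dimension at most `n` which
is a homology sphere (and homology manifold) over the field with two elements. This holds if the flag complex of `G`
itself is such a homology sphere, of dimension `n - 1`. -/
def Mod2 {V : Type} (n : ℕ) (G : SimpleGraph V) : Prop :=
  ∃ (N n' : ℕ) (K : Finset (Finset (Fin N))) (f : V ↪ Fin N), n' ≤ n + 1 ∧ Pool.Agent.Y131.KS.HSph K n' ∧
    ∀ T : Finset V, G.IsClique (T : Set V) → T.map f ∈ K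

/-- The number of the colours `c` such that `T` has an odd number of vertices of the colour `c` (`mc σ` is the colour
of the vertices of `σ`). -/
noncomputable def oddColours {N k : ℕ} {X : Finset (Finset (Fin N))} {col : Fin N → Fin k}
    (T : Finset (MF X col)) : ℕ :=
  ∑ c : Fin k, (T.filter (fun σ => mc σ = c)).card % 2

theorem odd_eq {N k : ℕ} {X : Finset (Finset (Fin N))} {col : Fin N → Fin k} (T : Finset (MF X col)) :
    oddColours T = ∑ c : Fin k, tcol T c % 2 :=
  Finset.sum_congr rfl fun c _ => by rw [tcol]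

/-- the general statement for coloured subdivisions -/
theorem main {n N k : ℕ} {X : Finset (Finset (Fin N))} {col : Fin N → Fin k} (a : Fin k → ℕ)
    (hX : ∀ σ ∈ X, ∀ τ : Finset (Fin N), τ ⊆ σ → τ ∈ X)
    (ha : ∀ σ ∈ X, ∀ c, (∀ v ∈ σ, col v = c) → σ.card ≤ 2 * a c)
    [Fintype (MF X col)] [LinearOrder (MF X col)] (hS : HSph n (cs X col)) (hS2 : Mod2 n (cs X col))
    {N' : ℕ} (φ : MF X col ≃ Fin N') {γ : ℕ → ℤ} (hγ : IsGamma n (fam φ (cs X col)) γ) (l : ℕ) (hl : 2 * l ≤ n)
    (h : ∀ T : Finset (MF X col), (cs X col).IsClique (T : Set (MF X col)) → T.card + 2 * l = n →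
      2 * ∑ c, a c + oddColours T ≤ n + 2) : 0 ≤ tau n l γ := by
  obtain ⟨N'', n', K, f, hn, hK, hf⟩ := hS2
  refine taylor_nonneg hS hl (fun T hT hc => ?_) φ hγ
  have h1 := h T hT (by omega)
  rw [odd_eq] at h1
  exact cd_link3 hX a ha hS K f hn hK hf T hT (by omega) h1

/-- the numerical condition -/
theorem main2 {n N k : ℕ} {X : Finset (Finset (Fin N))} {col : Fin N → Fin k} (a : Fin k → ℕ)
    (hX : ∀ σ ∈ X, ∀ τ : Finset (Fin N), τ ⊆ σ → τ ∈ X)
    (ha : ∀ σ ∈ X, ∀ c, (∀ v ∈ σ, col v = c) → σ.card ≤ 2 * a c)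
    [Fintype (MF X col)] [LinearOrder (MF X col)] (hS : HSph n (cs X col)) (hS2 : Mod2 n (cs X col))
    {N' : ℕ} (φ : MF X col ≃ Fin N') {γ : ℕ → ℤ} (hγ : IsGamma n (fam φ (cs X col)) γ) (l : ℕ) (hl : 2 * l ≤ n)
    (h : 2 * ∑ c, a c + min k (n - 2 * l) ≤ n + 3) : 0 ≤ tau n l γ := by
  refine main a hX ha hS hS2 φ hγ l hl fun T hT hc => ?_
  have h1 := odd_parity T
  have h2 := odd_le T
  have h3 := odd_le_card T
  rw [← odd_eq] at h1 h2 h3
  omega

/-- **The result.** (1) Let `X` be a simplicial complex with vertices coloured by `k` colours, its simplices with all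
vertices of the colour `c` having at most `2 a c` vertices, and let its colourwise subdivision `cs X col` be a
homology sphere of dimension `n - 1` over the reals contained in a homology sphere of dimension at most `n` over
the field with two elements. Let `γ` be the `γ`-vector of `cs X col`. Then `τ_l ≥ 0` if all the faces `T` of `cs X col`
with `n - 2 l` vertices have the property `2 ∑ a c + oddColours T ≤ n + 2`, in particular if
`2 ∑ a c + min k (n - 2 l) ≤ n + 3`. Special cases: `γ m ≥ 0` if `n = 2 m + 1` and `∑ a c ≤ m + 1`;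
`4 γ m + (m + 1) γ (m + 1) ≥ 0` if `n = 2 (m + 1)` and `∑ a c ≤ m + 1`; and `∑ γ i s ^ i > 0` for all real `s ≥ 1/4` if
`2 ∑ a c + k ≤ n + 3`. (2) For each flag homology sphere over the reals of dimension `n - 1` one has `τ_l ≥ 0` if
the links of all faces with `n - 2 l` vertices are in the class `SQ (l + 1)`; if this holds for all `l ≤ n / 2` then
`∑ γ i s ^ i > 0` for all real `s ≥ 1/4`. -/
theorem result :
    (∀ (n N k : ℕ) (X : Finset (Finset (Fin N))) (col : Fin N → Fin k) (a : Fin k → ℕ),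
      (∀ σ ∈ X, ∀ τ : Finset (Fin N), τ ⊆ σ → τ ∈ X) →
      (∀ σ ∈ X, ∀ c, (∀ v ∈ σ, col v = c) → σ.card ≤ 2 * a c) →
      ∀ [Fintype (MF X col)] [LinearOrder (MF X col)], HSph n (cs X col) → Mod2 n (cs X col) →
      ∀ (N' : ℕ) (φ : MF X col ≃ Fin N') (γ : ℕ → ℤ), IsGamma n (fam φ (cs X col)) γ →
      (∀ l, 2 * l ≤ n → (∀ T : Finset (MF X col), (cs X col).IsClique (T : Set (MF X col)) → T.card + 2 * l = n →
        2 * ∑ c, a c + oddColours T ≤ n + 2) → 0 ≤ tau n l γ) ∧
      (∀ l, 2 * l ≤ n → 2 * ∑ c, a c + min k (n - 2 * l) ≤ n + 3 → 0 ≤ tau n l γ) ∧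
      (∀ m, n = 2 * m + 1 → ∑ c, a c ≤ m + 1 → 0 ≤ γ m) ∧
      (∀ m, n = 2 * (m + 1) → ∑ c, a c ≤ m + 1 → 0 ≤ 4 * γ m + (m + 1) * γ (m + 1)) ∧
      (2 * ∑ c, a c + k ≤ n + 3 → ∀ s : ℝ, 1 / 4 ≤ s →
        0 < ∑ i ∈ Finset.range (n / 2 + 1), (γ i : ℝ) * s ^ i)) ∧
    (∀ (n : ℕ) (V : Type) [Fintype V] [LinearOrder V] (G : SimpleGraph V), HSph n G →
      ∀ (N : ℕ) (φ : V ≃ Fin N) (γ : ℕ → ℤ), IsGamma n (fam φ G) γ →
      (∀ l, 2 * l ≤ n → (∀ T : Finset V, G.IsClique (T : Set V) → T.card + 2 * l = n →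
        SQ (l + 1) (G.induce {v : V | ∀ u ∈ T, G.Adj v u})) → 0 ≤ tau n l γ) ∧
      ((∀ l, 2 * l ≤ n → ∀ T : Finset V, G.IsClique (T : Set V) → T.card + 2 * l = n →
        SQ (l + 1) (G.induce {v : V | ∀ u ∈ T, G.Adj v u})) → ∀ s : ℝ, 1 / 4 ≤ s →
        0 < ∑ i ∈ Finset.range (n / 2 + 1), (γ i : ℝ) * s ^ i)) := by
  classical
  refine ⟨?_, ?_⟩
  · intro n N k X col a hX ha _ _ hS hS2 N' φ γ hγ
    have h2 := main2 a hX ha hS hS2 φ hγ
    refine ⟨main a hX ha hS hS2 φ hγ, h2, ?_, ?_, ?_⟩
    · rintro m rfl hm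
      have h3 := h2 m (by omega) (by omega)
      rw [tau, Finset.sum_eq_single m] at h3
      · rw [Nat.choose_self, Nat.cast_one, one_mul] at h3
        have h4 : (0 : ℚ) < 4 ^ m := by positivity
        have h5 : (0 : ℚ) ≤ γ m := by
          rw [le_div_iff₀ h4, zero_mul] at h3
          exact h3
        exact_mod_cast h5
      · intro i hi him
        rw [Finset.mem_range] at hi
        rw [Nat.choose_eq_zero_of_lt (by omega)]
        simp
      · intro h
        exact absurd (Finset.mem_range.mpr (by omega)) h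
    · rintro m rfl hm
      have h3 := h2 m (by omega) (by omega)
      have e1 : 2 * (m + 1) / 2 + 1 = m + 1 + 1 := by omega
      rw [tau, e1, Finset.sum_range_succ, Finset.sum_range_succ, Finset.sum_eq_zero (fun i hi => by
        rw [Finset.mem_range] at hi
        rw [Nat.choose_eq_zero_of_lt hi]
        simp), zero_add, Nat.choose_self, Nat.choose_succ_self_right] at h3
      have h4 : (0 : ℚ) < 4 ^ m := by positivity
      have h5 : (0 : ℚ) ≤ 4 * γ m + (m + 1) * γ (m + 1) := by
        have h6 : (0 : ℚ) ≤ 4 ^ (m + 1) * (((1 : ℕ) : ℚ) * (γ m) / 4 ^ m +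
            ((m + 1 : ℕ) : ℚ) * (γ (m + 1)) / 4 ^ (m + 1)) := mul_nonneg (by positivity) h3
        have h7 : (4 : ℚ) ^ (m + 1) * (((1 : ℕ) : ℚ) * (γ m) / 4 ^ m +
            ((m + 1 : ℕ) : ℚ) * (γ (m + 1)) / 4 ^ (m + 1)) = 4 * γ m + (m + 1) * γ (m + 1) := by
          push_cast
          rw [pow_succ]
          field_simp
        rwa [h7] at h6
      exact_mod_cast h5
    · intro hk s hs
      exact gamma_eval_pos hS φ hγ (fun l hl => h2 l hl (by omega)) s hs
  · intro n V _ _ G hS N φ γ hγ
    have h1 : ∀ l, 2 * l ≤ n → (∀ T : Finset V, G.IsClique (T : Set V) → T.card + 2 * l = n →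
        SQ (l + 1) (G.induce {v : V | ∀ u ∈ T, G.Adj v u})) → 0 ≤ tau n l γ := by
      intro l hl h
      refine taylor_nonneg hS hl (fun T hT hc => ?_) φ hγ
      have hfin : Fintype ↥(Pool.Agent.W907.SM.lk G T) := Fintype.ofFinite _
      have h2 := Pool.Agent.R703.CW.hsph_link hS T hT
      rw [show n - T.card = 2 * l by omega] at h2
      rw [← Pool.Agent.R703.CW.chiW_link T]
      exact charney_davis_SQ h2 (h T hT (by omega))
    exact ⟨h1, fun h s hs => gamma_eval_pos hS φ hγ (fun l hl => h1 l hl (h l hl)) s hs⟩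

end Pool.Agent.Results.MP_19e880_co.ColouredTaylor
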