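import Pool.Agent.R782.Bal.Gam

/-!
# The top coefficient of the `γ`-vector of colourwise subdivided flag spheres

Gal's inequality `γ_m ≥ 0` for flag homology spheres of dimension `2 m - 1` (the inequality of Charney and Davis), for
two families of spheres, without any restriction on the dimension or on the number of vertices. The face family
`fam φ G` is the flag complex of the graph `G`, its vertices being numbered by `φ`.

(1) Colourwise barycentric subdivisions `cs X col` of simplicial complexes `X` embedded in the sphere of dimension
`2 m`: only the monochromatic simplices of `X` are subdivided. The colouring has to be small: there are numbers `a c`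
with sum at most `m + 1` such that the simplices of colour `c` have at most `2 a c` vertices. (For example: flag
spheres `X` of dimension `2 m - 1` with `m + 1` colours and without monochromatic triangles, the monochromatic edges
are subdivided. For one colour it is the barycentric subdivision.)

(2) The class `SQ (m + 1)`, which has as a base the flag complexes embedded in the sphere of dimension `2 m` which
have a proper colouring by `m + 1` colours and is closed under the operations listed in its definition (relative
subdivisions, inverse edge contractions, gluings, adding and deleting vertices and edges under conditions on the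
links, joins, suspensions, ...).
-/

set_option autoImplicit false

namespace Pool.Agent.Results.MP_19e880_co.ColouredTopGamma

open Pool.Agent.W907.SG Pool.Agent.W497.FS Pool.Agent.R781.CubeAQ Pool.Agent.R782.Bal
open Pool.Agent.TH652.Above (HSph chi_sign)

/-- Let `γ` be the `γ`-vector of the flag homology sphere of dimension `2 m - 1` (over the reals) given by the graph
`G`. Then `γ m ≥ 0` if (1) `G = cs X col` for a simplicial complex `X` embedded in the sphere of dimension `2 m`
and a small colouring of its vertices; (2) `G` is in the class `SQ (m + 1)`. -/
theorem result :
    (∀ (m N k : ℕ) (X : Finset (Finset (Fin N))) (col : Fin N → Fin k),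
      (∀ σ ∈ X, ∀ τ : Finset (Fin N), τ ⊆ σ → τ ∈ X) → Small m X col → EmbX m X col →
      ∀ [Fintype (MF X col)] [LinearOrder (MF X col)], HSph (2 * m) (cs X col) →
      ∀ (n : ℕ) (φ : MF X col ≃ Fin n) (γ : ℕ → ℤ), IsGamma (2 * m) (fam φ (cs X col)) γ → 0 ≤ γ m) ∧
    (∀ (m : ℕ) (V : Type) [Fintype V] [LinearOrder V] (G : SimpleGraph V), HSph (2 * m) G → SQ (m + 1) G →
      ∀ (n : ℕ) (φ : V ≃ Fin n) (γ : ℕ → ℤ), IsGamma (2 * m) (fam φ G) γ → 0 ≤ γ m) := by
  refine ⟨?_, ?_⟩
  · intro m N k X col hX hs hE _ _ hS n φ γ hγ
    exact gamma_top_nonneg hS (chi_sign _ fun i hi => singer_cs (Or.inl rfl) hX hs hE hS i (by omega)) φ hγ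
  · intro m V _ _ G hS hA n φ γ hγ
    exact gamma_top_nonneg hS (charney_davis_SQ hS hA) φ hγ

end Pool.Agent.Results.MP_19e880_co.ColouredTopGamma
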