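import Pool.Agent.R703.MO.Gam

/-!
# The last coefficient of the `γ`-vector of flag spheres: a Morse criterion

Gal's inequality `γ_m ≥ 0` for flag homology spheres of dimension `2 m - 1` (the inequality of Charney and Davis) and
of dimension `2 m`, without any restriction on the dimension or on the number of vertices. The face family `fam φ G` is
the flag complex of the graph `G`, its vertices being numbered by `φ`.

The hypothesis is a Morse criterion. A system of slopes (`Slope G X`) on a finite set `X` consists of commuting
involutions `a v` of `X` (`v` a vertex; they have to commute only for adjacent vertices) and integers `dir v x`, the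
slope of the edge from `x` to `a v x`, which change sign if the edge is reversed and are equal for opposite
edges of squares. Example: `X` is the set of colourings of the colour classes of a proper colouring by two states,
`a v` changes the state of the colour class of `v`, and `dir v x` is the sign at `v` of a function on the
vertices times the state of the class of `v`.

The property `HasSlopes (2 m) G`: for each `i > m` there is a system of slopes such that for all points `x` and all
cliques `S` of directions of slope zero at `x` (including the empty clique) the flag complex on the ascending
directions at `x` which are adjacent to all the elements of `S` has no reduced real homology in the degree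
`i - |S| - 1`.

The class `MQ (m + 1)` contains the graphs with `HasSlopes` for a single system of slopes, the earlier class `BR`
(for example the barycentric subdivisions of all triangulated spheres), and is closed under a relative Morse rule and
the operations of the earlier class `SQ` (relative subdivisions, inverse edge contractions, gluings, adding and
deleting vertices and edges under conditions on the links, joins, suspensions, ...).
-/

set_option autoImplicit false

namespace Pool.Agent.Results.MP_19e880_co.MorseTopGamma

open Pool.Agent.W907.SG Pool.Agent.W907.SM Pool.Agent.W497.FS Pool.Agent.R781.CubeAQ Pool.Agent.R703.MO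
open Pool.Agent.TH652.Above (HSph chi_sign)

/-- For each degree `i > n / 2` there is a system of slopes of `G` on a nonempty finite set such that for all points
`x` and all cliques `S` of flat directions at `x` with `|S| ≤ i` the flag complex on the ascending directions at `x`
adjacent to all the elements of `S` has no reduced real homology in the degree `i - |S| - 1`. -/
def HasSlopes (n : ℕ) {V : Type} [Fintype V] [LinearOrder V] (G : SimpleGraph V) : Prop :=
  ∀ i : ℕ, n < 2 * i → ∃ (X : Type) (_ : Finite X) (_ : Nonempty X) (D : Slope G X), ∀ (x : X) (S : Finset V),
    G.IsClique (S : Set V) → (∀ s ∈ S, D.dir s x = 0) → ∀ j, i = j + S.card → HomZero G (D.Asc S x) j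

/-- the Charney-Davis inequality for the flag homology spheres with the property -/
theorem cd {m : ℕ} {V : Type} [Fintype V] [LinearOrder V] {G : SimpleGraph V} (hS : HSph (2 * m) G)
    (h : HasSlopes (2 * m) G ∨ MQ (m + 1) G) : 0 ≤ (-1 : ℚ) ^ m * chiW G := by
  rcases h with h | h
  · exact chi_sign G fun i hi => singer_slopes hS h i (by omega)
  · exact charney_davis_MQ hS h

open Classical in
/-- Let `γ` be the `γ`-vector of the flag homology sphere (over the reals) of dimension `2 m - 1` or `2 m` given by
the graph `G`. Then `γ m ≥ 0` if (1) the dimension is `2 m - 1` and `G` has the property `HasSlopes (2 m)` or is in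
the class `MQ (m + 1)`; (2) the dimension is `2 m` and the links of all the vertices have this property. -/
theorem result :
    (∀ (m : ℕ) (V : Type) [Fintype V] [LinearOrder V] (G : SimpleGraph V), HSph (2 * m) G →
      (HasSlopes (2 * m) G ∨ MQ (m + 1) G) →
      ∀ (n : ℕ) (φ : V ≃ Fin n) (γ : ℕ → ℤ), IsGamma (2 * m) (fam φ G) γ → 0 ≤ γ m) ∧
    (∀ (m : ℕ) (V : Type) [Fintype V] [LinearOrder V] (G : SimpleGraph V), HSph (2 * m + 1) G →
      (∀ v : V, HasSlopes (2 * m) (G.induce (G.neighborSet v)) ∨ MQ (m + 1) (G.induce (G.neighborSet v))) →
      ∀ (n : ℕ) (φ : V ≃ Fin n) (γ : ℕ → ℤ), IsGamma (2 * m + 1) (fam φ G) γ → 0 ≤ γ m) := by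
  refine ⟨?_, ?_⟩
  · intro m V _ _ G hS hA n φ γ hγ
    exact Pool.Agent.R782.Bal.gamma_top_nonneg hS (cd hS hA) φ hγ
  · intro m V _ _ G hS hA n φ γ hγ
    refine gamma_top_odd_nonneg hS (fun v => ?_) φ hγ
    have h1 : HSph (2 * m) (G.induce (Pool.Agent.W907.SM.lk G {v})) := by
      have h2 := Pool.Agent.R703.CW.hsph_link hS {v} (by simp)
      rw [Finset.card_singleton, Nat.add_sub_cancel] at h2
      exact h2
    have hA' := hA v
    have h3 : Pool.Agent.W907.SM.lk G {v} = G.neighborSet v := by
      ext x
      constructor
      · intro h
        exact (h v (Finset.mem_singleton_self _)).symm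
      · intro h u hu
        rw [Finset.mem_singleton] at hu
        subst hu
        exact SimpleGraph.Adj.symm h
    revert h1
    rw [h3]
    intro h1
    refine cd ?_ hA'
    convert h1

end Pool.Agent.Results.MP_19e880_co.MorseTopGamma
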