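import Pool.Agent.R580.CD.GAmp

/-!
# Gal's conjecture improves itself

The clique complex of a finite graph `G` (these are all finite flag complexes) is a homology `(d - 1)`-sphere over
the field `F` if for every simplex `T` (the empty one included) the link of `T` has the reduced homology over `F`
of the sphere of dimension `d - 1 - |T|` (`Sph F d G`). Its gamma-vector `gam d G` is given by
`∑_T x^|T| = ∑_i γ_i (x + x^2)^i (1 + 2x)^(d-2i)`; with `t = x / (1 + x)` this is the identity
`h(t) = ∑_i γ_i t^i (1 + t)^(d-2i)`. (The existence of the gamma-vector, that is, the Dehn–Sommerville relations,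
is proved here, too.) Gal's conjecture says `γ_i ≥ 0`.

If `S` is a flag homology sphere with `N` vertices then `|γ_r| = O(N^r)`.

(1) If Gal's conjecture holds in all dimensions less than `d - 1` and fails in the dimension `d - 1`, for `γ_i`,
then for every `j` there are `c > 0` and flag homology `(d+2j-1)`-spheres with arbitrarily large numbers `N` of
vertices and `γ_(i+j) ≤ - c N^(j+1)`.

(2) Gal's conjecture up to the dimension `d - 1` is equivalent to `γ_i ≥ - o(N)` up to the dimension `d - 1`.

(3) Gal's conjecture is equivalent to an unbounded power saving: for all `e` and `B` there is some `r ≥ B` such that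
`γ_r ≥ - O(N^(r-B))` for the flag homology spheres of dimension `2 r + e - 1`.

Proof. Doubles along the complement of the open star of a vertex `v` (the gamma-vector is `2 γ(S) - γ(lk v)`) and
joins with long cycles (`γ(x)` is multiplied by `1 + (k-4) x`).
-/

set_option autoImplicit false

namespace Pool.Agent.Results.MP_19e880_co.SelfImprovement

open Pool.Agent.R580.CD

/-- Gal's conjecture for flag homology `(d - 1)`-spheres over `F`. -/
def Gal (F : Type) [Field F] (d : ℕ) : Prop :=
  ∀ (V : Type) [Fintype V] [LinearOrder V] (G : SimpleGraph V), Sph F d G → ∀ i, 0 ≤ gam d G i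

/-- **Self-improvement of Gal's conjecture.** -/
theorem result (F : Type) [Field F] :
    (∀ (d : ℕ) (V : Type) [Fintype V] [LinearOrder V] (G : SimpleGraph V), Sph F d G →
      IsGam d (fp G Set.univ) (gam d G)) ∧
    (∀ (d i : ℕ) (V : Type) [Fintype V] [LinearOrder V] (G : SimpleGraph V), (∀ d' < d, Gal F d') →
      Sph F d G → gam d G i < 0 → ∀ j : ℕ, ∃ c : ℚ, 0 < c ∧ ∀ N : ℕ,
        ∃ (W : Type) (_ : Fintype W) (_ : LinearOrder W) (H : SimpleGraph W), Sph F (d + 2 * j) H ∧
          N ≤ Fintype.card W ∧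
          (gam (d + 2 * j) H (i + j) : ℚ) ≤ - c * (Fintype.card W : ℚ) ^ (j + 1)) ∧
    (∀ d : ℕ, (∀ d' ≤ d, Gal F d') ↔ ∀ d' ≤ d, ∀ (i : ℕ) (ε : ℚ), 0 < ε → ∃ C : ℚ,
      ∀ (W : Type) [Fintype W] [LinearOrder W] (H : SimpleGraph W), Sph F d' H →
        - (ε * Fintype.card W + C) ≤ (gam d' H i : ℚ)) ∧
    ((∀ d : ℕ, Gal F d) ↔ ∀ e B : ℕ, ∃ r : ℕ, B ≤ r ∧ ∃ C : ℚ,
      ∀ (W : Type) [Fintype W] [LinearOrder W] (H : SimpleGraph W), Sph F (2 * r + e) H →
        - C * (Fintype.card W : ℚ) ^ (r - B) ≤ (gam (2 * r + e) H r : ℚ)) := by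
  refine ⟨fun d V _ _ G hS => gam_spec hS,
    fun d i V _ _ G hpos hS hneg j => gal_amplify hS (fun d' hd' W _ _ H hH => hpos d' hd' W H hH) hneg j,
    fun d => ⟨?_, ?_⟩, ⟨?_, ?_⟩⟩
  · intro h d' hd' i ε hε
    refine ⟨0, fun W _ _ H hH => ?_⟩
    have h1 : (0 : ℚ) ≤ gam d' H i := by exact_mod_cast h d' hd' W H hH i
    have h2 : 0 ≤ ε * Fintype.card W := by positivity
    linarith
  · intro h d'
    induction d' using Nat.strong_induction_on with
    | _ d' ih =>
      intro hd' V _ _ G hS i
      by_contra hcon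
      push Not at hcon
      obtain ⟨c, hc, hamp⟩ := gal_amplify hS
        (fun d'' hd'' W _ _ H hH => ih d'' hd'' (by omega) W H hH) hcon 0
      obtain ⟨C, hC⟩ := h d' hd' i (c / 2) (by positivity)
      obtain ⟨N, hN⟩ := exists_nat_gt (2 * C / c)
      obtain ⟨W, i1, i2, H, h1, h2, h3⟩ := hamp N
      have h4 := hC W H h1
      rw [Nat.mul_zero, add_zero, add_zero, zero_add, pow_one] at h3
      have h5 : (N : ℚ) ≤ Fintype.card W := by exact_mod_cast h2
      rw [div_lt_iff₀ hc] at hN
      have h6 : (N : ℚ) * c ≤ Fintype.card W * c := mul_le_mul_of_nonneg_right h5 hc.le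
      nlinarith
  · intro h e B
    refine ⟨B, le_rfl, 0, fun W _ _ H hH => ?_⟩
    rw [neg_zero, zero_mul]
    exact_mod_cast h _ W H hH B
  · intro h d
    induction d using Nat.strong_induction_on with
    | _ d ih =>
      intro V _ _ G hS i
      by_contra hcon
      push Not at hcon
      have hi : i ≤ d / 2 := by
        by_contra hcon2
        rw [(gam_spec hS).2 i (by omega)] at hcon
        exact lt_irrefl _ hcon
      obtain ⟨e, rfl⟩ : ∃ e, d = 2 * i + e := ⟨d - 2 * i, by omega⟩
      obtain ⟨r, hr, C, hC⟩ := h e i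
      obtain ⟨j, rfl⟩ : ∃ j, r = i + j := ⟨r - i, by omega⟩
      obtain ⟨c, hc, hamp⟩ := gal_amplify hS (fun d' hd' W _ _ H hH => ih d' hd' W H hH) hcon j
      obtain ⟨N, hN⟩ := exists_nat_gt (C / c)
      obtain ⟨W, i1, i2, H, h1, h2, h3⟩ := hamp (N + 1)
      rw [show 2 * i + e + 2 * j = 2 * (i + j) + e by ring] at h1 h3
      have h4 := hC W H h1
      rw [Nat.add_sub_cancel_left] at h4
      have h5 : (N : ℚ) + 1 ≤ Fintype.card W := by exact_mod_cast h2
      rw [div_lt_iff₀ hc] at hN
      have h6 : 0 < (Fintype.card W : ℚ) ^ j := by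
        have : (0 : ℚ) < Fintype.card W := by
          have : (0 : ℚ) ≤ N := by positivity
          linarith
        positivity
      have h7 : - C * (Fintype.card W : ℚ) ^ j ≤ - c * (Fintype.card W : ℚ) ^ (j + 1) := h4.trans h3
      rw [pow_succ] at h7
      have h8 : c * (Fintype.card W : ℚ) * (Fintype.card W : ℚ) ^ j ≤ C * (Fintype.card W : ℚ) ^ j := by
        nlinarith
      have h9 := le_of_mul_le_mul_right h8 h6
      nlinarith

end Pool.Agent.Results.MP_19e880_co.SelfImprovement
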